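import Pool.Agent.H15.FLX.Targets
import Pool.Agent.H53.MC.PC

/-!
MP_c62aed_lc, random CNFs: row PRX. Every derived inequality has a small cover, and the formula
hits its kernel.
-/

set_option autoImplicit false

namespace Pool.Agent.H80.FLX

open Finset
open Pool.Agent.H15.FLX
open Pool.Agent.H53.MC (Clause Falsified SatBy Line Circuit U Viol toC scope Ins cnt H1 Covers Ker
  Err InR Bad cf tau pc_fals)

theorem prx_mono {n M k : ℕ} (g : Fin M → Fin k → Fin n) (r w : ℕ)
    (f : ℕ → (Fin n → Bool) → ℝ) {i j : ℕ} (hij : i ≤ j) : ER g r w f i ⊆ ER g r w f j := by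
  induction hij with
  | refl => exact Subset.refl _
  | step _ ih =>
    refine Subset.trans ih ?_
    rw [ER]
    exact subset_union_left

/-- a cover by at most `r` clauses gives both conclusions -/
theorem prx_step {n M k : ℕ} (g : Fin M → Fin k → Fin n) (r w m q : ℕ)
    (f : ℕ → (Fin n → Bool) → ℝ) (F : Fin m → U M k) (i : ℕ) (a : ℝ)
    (hF : ¬ Bad g q (KR g r w f i) F) (T₀ : Finset (U M k)) (hT₀ : InR F T₀)
    (hT₀c : T₀.card ≤ r) (hT₀v : Covers g T₀ (BR (ER g r w f i) (f i) a)) :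
    (∃ T : Finset (U M k), InR F T ∧ T.card ≤ q ∧
      Covers g T (BR (ER g r w f (i + 1)) (f i) a)) ∧
      ∀ p ∈ Ker g r w (BR (ER g r w f i) (f i) a), ∃ j, Ins g p (F j) := by
  classical
  have hit : ∀ p ∈ Ker g r w (BR (ER g r w f i) (f i) a), ∃ j, Ins g p (F j) := by
    intro p hp
    obtain ⟨c, hc, hin⟩ := hp.2 T₀ hT₀c hT₀v
    obtain ⟨j, hj⟩ := hT₀ c hc
    exact ⟨j, hj ▸ hin⟩
  refine ⟨?_, hit⟩
  unfold Bad at hF
  push Not at hF
  obtain ⟨T', hT', hT'c, hT'p⟩ := hF _ ⟨a, rfl⟩ hit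
  refine ⟨T', hT', hT'c, ?_⟩
  intro x hx
  rw [BR, mem_filter] at hx
  obtain ⟨_, hx1, hx2⟩ := hx
  rw [ER, mem_union, not_or] at hx1
  obtain ⟨hx3, hx4⟩ := hx1
  have hxB : x ∈ BR (ER g r w f i) (f i) a := by
    rw [BR, mem_filter]
    exact ⟨mem_univ _, hx3, hx2⟩
  have hx5 : x ∉ Err g r w (BR (ER g r w f i) (f i) a) := by
    intro hh
    exact hx4 (mem_filter.2 ⟨mem_univ _, _, hh⟩)
  rw [Err, mem_filter, not_and] at hx5
  have hx6 := hx5 hxB
  push Not at hx6
  obtain ⟨A, _, hA⟩ := hx6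
  obtain ⟨c, hc, hin⟩ := hT'p _ hA
  exact ⟨c, hc, hin.2⟩

theorem pf_PRX : T_PRX := by
  intro n M k g r w m q t _hg hr f F s hF i a hi hD
  classical
  induction hD with
  | step i a P T hP hlt hPd hT hTF himp ih =>
    choose TQ hTQ1 hTQ2 hTQ3 using fun p hp => (ih p hp (lt_trans (hlt p hp) hi)).1
    choose jc hjc using hTF
    let S1 : Finset (U M k) := P.attach.biUnion fun p => TQ p.1 p.2
    let S2 : Finset (U M k) := T.attach.image fun c => F (jc c.1 c.2)
    have hS1 : InR F S1 := by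
      intro c hc
      obtain ⟨p, -, hp⟩ := Finset.mem_biUnion.1 hc
      exact hTQ1 p.1 p.2 c hp
    have hS2 : InR F S2 := by
      intro c hc
      obtain ⟨b, -, hb⟩ := Finset.mem_image.1 hc
      exact ⟨_, hb⟩
    have hR : InR F (S1 ∪ S2) := by
      intro c hc
      rcases Finset.mem_union.1 hc with h | h
      · exact hS1 c h
      · exact hS2 c h
    have hc1 : S1.card ≤ t * q := by
      have h1 := Finset.card_biUnion_le_card_mul P.attach (fun p => TQ p.1 p.2) q
        (fun p _ => hTQ2 p.1 p.2)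
      rw [Finset.card_attach] at h1
      exact h1.trans (Nat.mul_le_mul_right q hP)
    have hc2 : S2.card ≤ t := by
      have h1 := Finset.card_image_le (s := T.attach) (f := fun c => F (jc c.1 c.2))
      rw [Finset.card_attach] at h1
      exact h1.trans hT
    have hcard : (S1 ∪ S2).card ≤ r := by
      have h1 := Finset.card_union_le S1 S2
      omega
    have hcov : Covers g (S1 ∪ S2) (BR (ER g r w f i) (f i) a) := by
      intro x hx
      rw [BR, mem_filter] at hx
      obtain ⟨_, hx1, hx2⟩ := hx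
      have h1 : ¬ ((∀ p ∈ P, p.2 ≤ f p.1 x) ∧ ∀ c ∈ T, ¬ Falsified c x) := fun h =>
        absurd (himp x h.1 h.2) (not_le.2 hx2)
      rw [not_and_or] at h1
      rcases h1 with h1 | h1
      · push Not at h1
        obtain ⟨p, hp, hxp⟩ := h1
        obtain ⟨c, hc, hv⟩ := hTQ3 p hp x (by
          rw [BR, mem_filter]
          refine ⟨mem_univ _, ?_, hxp⟩
          intro hh
          exact hx1 (prx_mono g r w f (Nat.succ_le_of_lt (hlt p hp)) hh))
        exact ⟨c, Finset.mem_union_left _ (Finset.mem_biUnion.2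
          ⟨⟨p, hp⟩, Finset.mem_attach _ _, hc⟩), hv⟩
      · push Not at h1
        obtain ⟨c, hc, hf⟩ := h1
        refine ⟨F (jc c hc), Finset.mem_union_right _ (Finset.mem_image.2
          ⟨⟨c, hc⟩, Finset.mem_attach _ _, rfl⟩), pc_fals g _ x ?_⟩
        have h2 : toC g (F (jc c hc)) = c := hjc c hc
        rw [h2]
        exact hf
    exact prx_step g r w m q f F i a (hF i hi) (S1 ∪ S2) hR hcard hcov

end Pool.Agent.H80.FLX
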